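import Pool.Agent.Helper89.Stz.Defs
import Pool.Agent.Helper73.RK.DivBound

/-!
# Divisor bound and number of representations as a sum of two squares
-/

set_option autoImplicit false

namespace Stz

open Finset

theorem divisor_bound : ∀ ε : ℝ, 0 < ε → ∃ C : ℝ, 0 < C ∧ ∀ n : ℕ, 1 ≤ n →
    (n.divisors.card : ℝ) ≤ C * (n : ℝ) ^ ε := by
  intro ε hε
  obtain ⟨j, hj⟩ := exists_nat_gt (1 / ε)
  have hj0 : 0 < (j : ℝ) := lt_trans (by positivity) hj
  have hjn : j ≠ 0 := by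
    intro h
    rw [h, Nat.cast_zero] at hj0
    exact lt_irrefl _ hj0
  obtain ⟨C, hC1, hC⟩ := Pool.Agent.Helper73.RK.card_divisors_pow_le j
  have hCr : (1 : ℝ) ≤ C := by exact_mod_cast hC1
  refine ⟨(C : ℝ) ^ (1 / (j : ℝ)), by positivity, fun n hn => ?_⟩
  have hn1 : (1 : ℝ) ≤ n := by exact_mod_cast hn
  have h1 : ((n.divisors.card : ℝ)) ^ j ≤ C * n := by exact_mod_cast hC n (by omega)
  have h2 : (n.divisors.card : ℝ) = (((n.divisors.card : ℝ)) ^ j) ^ (1 / (j : ℝ)) := by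
    rw [one_div, Real.pow_rpow_inv_natCast (Nat.cast_nonneg _) hjn]
  have h3 : 1 / (j : ℝ) ≤ ε := by
    rw [div_le_iff₀ hj0]
    rw [div_lt_iff₀ hε] at hj
    linarith
  calc (n.divisors.card : ℝ) = (((n.divisors.card : ℝ)) ^ j) ^ (1 / (j : ℝ)) := h2
    _ ≤ (C * n) ^ (1 / (j : ℝ)) :=
        Real.rpow_le_rpow (pow_nonneg (Nat.cast_nonneg _) _) h1 (by positivity)
    _ = (C : ℝ) ^ (1 / (j : ℝ)) * (n : ℝ) ^ (1 / (j : ℝ)) :=
        Real.mul_rpow (by positivity) (by positivity)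
    _ ≤ (C : ℝ) ^ (1 / (j : ℝ)) * (n : ℝ) ^ ε :=
        mul_le_mul_of_nonneg_left (Real.rpow_le_rpow_of_exponent_le hn1 h3) (by positivity)

/-- two primitive representations with the same label differ by a solution of `a² + b² = 4` -/
theorem rep_key (R x0 y0 x y x' y' g : ℤ) (hR : 1 ≤ R)
    (h0 : x0 ^ 2 + y0 ^ 2 = R) (c0 : IsCoprime x0 y0)
    (h : x ^ 2 + y ^ 2 = R) (c : IsCoprime x y)
    (h' : x' ^ 2 + y' ^ 2 = R)
    (hg : g = (Int.gcd R (x * y0 - x0 * y) : ℤ))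
    (hg' : g = (Int.gcd R (x' * y0 - x0 * y') : ℤ)) :
    R ∣ 2 * (x * y' - x' * y) ∧ R ∣ 2 * (x * x' + y * y') := by
  have hR0 : R ≠ 0 := by omega
  have hy0 : IsCoprime R y0 := by
    have : IsCoprime (x0 * x0 + y0 * y0) y0 :=
      (IsCoprime.mul_left c0 c0).add_mul_left_left y0
    rw [← h0]
    convert this using 1
    ring
  have hx : IsCoprime R x := by
    have : IsCoprime (y * y + x * x) x :=
      (IsCoprime.mul_left c.symm c.symm).add_mul_left_left x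
    rw [← h]
    convert this using 1
    ring
  -- g divides R
  have hgR : g ∣ R := by rw [hg]; exact Int.gcd_dvd_left _ _
  obtain ⟨k, hk⟩ := hgR
  have hg0 : g ≠ 0 := by
    intro h
    rw [h, zero_mul] at hk
    exact hR0 hk
  -- k divides the plus form
  have plus : ∀ u v : ℤ, u ^ 2 + v ^ 2 = R → g = (Int.gcd R (u * y0 - x0 * v) : ℤ) →
      g ∣ u * y0 - x0 * v ∧ k ∣ u * y0 + x0 * v := by
    intro u v huv hgu
    have h1 : g ∣ u * y0 - x0 * v := by rw [hgu]; exact Int.gcd_dvd_right _ _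
    refine ⟨h1, ?_⟩
    obtain ⟨l, hl⟩ := h1
    have hcop : IsCoprime k l := by
      rw [Int.isCoprime_iff_gcd_eq_one]
      have h2 : (Int.gcd (g * k) (g * l) : ℤ) = |g| * (Int.gcd k l : ℤ) := by
        rw [Int.gcd_mul_left]
        push_cast
        rfl
      have h3 : |g| = g := by
        rw [hgu]
        exact abs_of_nonneg (Int.natCast_nonneg _)
      rw [← hk, ← hl, ← hgu, h3] at h2
      have h4 : (Int.gcd k l : ℤ) = 1 := by
        have : g * ((Int.gcd k l : ℤ) - 1) = 0 := by linarith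
        rcases mul_eq_zero.mp this with h | h
        · exact absurd h hg0
        · linarith
      exact_mod_cast h4
    have h5 : g * k ∣ g * (l * (u * y0 + x0 * v)) := by
      refine ⟨u ^ 2 - x0 ^ 2, ?_⟩
      calc g * (l * (u * y0 + x0 * v)) = (g * l) * (u * y0 + x0 * v) := by ring
        _ = (u * y0 - x0 * v) * (u * y0 + x0 * v) := by rw [hl]
        _ = u ^ 2 * y0 ^ 2 - x0 ^ 2 * v ^ 2 := by ring
        _ = u ^ 2 * (R - x0 ^ 2) - x0 ^ 2 * (R - u ^ 2) := by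
            have e1 : y0 ^ 2 = R - x0 ^ 2 := by linarith
            have e3 : v ^ 2 = R - u ^ 2 := by linarith
            rw [e1, e3]
        _ = R * (u ^ 2 - x0 ^ 2) := by ring
        _ = g * k * (u ^ 2 - x0 ^ 2) := by rw [hk]
    have h6 : k ∣ l * (u * y0 + x0 * v) := (mul_dvd_mul_iff_left hg0).mp h5
    exact hcop.dvd_of_dvd_mul_left h6
  obtain ⟨a1, b1⟩ := plus x y h hg
  obtain ⟨a2, b2⟩ := plus x' y' h' hg'
  have hgy : IsCoprime g y0 := hy0.of_isCoprime_of_dvd_left ⟨k, hk⟩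
  have hky : IsCoprime k y0 := hy0.of_isCoprime_of_dvd_left ⟨g, by rw [hk]; ring⟩
  -- the four divisibilities
  have d1 : g ∣ x * y' - x' * y := by
    have : g ∣ y0 * (x * y' - x' * y) := by
      have e : y0 * (x * y' - x' * y) = (x * y0 - x0 * y) * y' - (x' * y0 - x0 * y') * y := by ring
      rw [e]
      exact dvd_sub (a1.mul_right _) (a2.mul_right _)
    exact hgy.dvd_of_dvd_mul_left this
  have d2 : k ∣ x * y' - x' * y := by
    have : k ∣ y0 * (x * y' - x' * y) := by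
      have e : y0 * (x * y' - x' * y) = (x * y0 + x0 * y) * y' - (x' * y0 + x0 * y') * y := by ring
      rw [e]
      exact dvd_sub (b1.mul_right _) (b2.mul_right _)
    exact hky.dvd_of_dvd_mul_left this
  have d3 : g ∣ x * x' + y * y' := by
    have : g ∣ y0 ^ 2 * (x * x' + y * y') := by
      have e : y0 ^ 2 * (x * x' + y * y') = (x * y0 - x0 * y) * (x' * y0) +
          (x' * y0 - x0 * y') * (x0 * y) + (x0 ^ 2 + y0 ^ 2) * (y * y') := by ring
      rw [e, h0]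
      exact dvd_add (dvd_add (a1.mul_right _) (a2.mul_right _)) ((Dvd.intro _ hk.symm).mul_right _)
    exact (hgy.pow_right (n := 2)).dvd_of_dvd_mul_left this
  have d4 : k ∣ x * x' + y * y' := by
    have : k ∣ y0 ^ 2 * (x * x' + y * y') := by
      have e : y0 ^ 2 * (x * x' + y * y') = (x * y0 + x0 * y) * (x' * y0) -
          (x' * y0 + x0 * y') * (x0 * y) + (x0 ^ 2 + y0 ^ 2) * (y * y') := by ring
      rw [e, h0]
      exact dvd_add (dvd_sub (b1.mul_right _) (b2.mul_right _))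
        ((Dvd.intro_left _ hk.symm).mul_right _)
    exact (hky.pow_right (n := 2)).dvd_of_dvd_mul_left this
  -- gcd (g, k) divides 2
  have hgx : IsCoprime g x := hx.of_isCoprime_of_dvd_left ⟨k, hk⟩
  obtain ⟨r, s, hrs⟩ : ∃ r s : ℤ, r * g + s * k = 2 := by
    obtain ⟨p, q, hpq⟩ := hgx.mul_right hgy
    obtain ⟨u, hu⟩ := a1
    obtain ⟨v, hv⟩ := b1
    -- 2 x y0 = g u + k v
    refine ⟨2 * p + q * u, q * v, ?_⟩
    have : 2 * (x * y0) = g * u + k * v := by linarith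
    calc (2 * p + q * u) * g + q * v * k = 2 * (p * g) + q * (g * u + k * v) := by ring
      _ = 2 * (p * g + q * (x * y0)) := by rw [← this]; ring
      _ = 2 := by rw [hpq]; ring
  have fin : ∀ w : ℤ, g ∣ w → k ∣ w → R ∣ 2 * w := by
    intro w h1 h2
    obtain ⟨w1, hw1⟩ := h1
    obtain ⟨w2, hw2⟩ := h2
    refine ⟨r * w2 + s * w1, ?_⟩
    calc 2 * w = (r * g + s * k) * w := by rw [hrs]
      _ = r * g * w + s * k * w := by ring
      _ = r * g * (k * w2) + s * k * (g * w1) := by rw [← hw1, ← hw2]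
      _ = g * k * (r * w2 + s * w1) := by ring
      _ = R * (r * w2 + s * w1) := by rw [hk]
  exact ⟨fin _ d1 d2, fin _ d3 d4⟩

/-- primitive representations -/
theorem prim_card (R : ℤ) (hR : 1 ≤ R) (S : Finset (ℤ × ℤ))
    (hS : ∀ p ∈ S, p.1 ^ 2 + p.2 ^ 2 = R ∧ IsCoprime p.1 p.2) :
    S.card ≤ 4 * R.natAbs.divisors.card := by
  classical
  rcases S.eq_empty_or_nonempty with rfl | ⟨p0, hp0⟩
  · simp
  obtain ⟨h0, c0⟩ := hS p0 hp0
  set f : ℤ × ℤ → ℕ := fun p => Int.gcd R (p.1 * p0.2 - p0.1 * p.2) with hf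
  have hmap : ∀ p ∈ S, f p ∈ R.natAbs.divisors := by
    intro p _
    rw [Nat.mem_divisors]
    refine ⟨?_, by omega⟩
    exact Nat.gcd_dvd_left _ _
  refine Finset.card_le_mul_card_image_of_maps_to hmap 4 ?_
  intro g _
  -- fibre
  rcases (S.filter fun p => f p = g).eq_empty_or_nonempty with h | ⟨q, hq⟩
  · rw [h]; simp
  rw [mem_filter] at hq
  obtain ⟨hqS, hqg⟩ := hq
  obtain ⟨h1, c1⟩ := hS q hqS
  set T : Finset (ℤ × ℤ) := {(2, 0), (-2, 0), (0, 2), (0, -2)} with hT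
  have hTc : T.card ≤ 4 := by
    rw [hT]; exact Finset.card_le_four
  refine le_trans ?_ hTc
  refine Finset.card_le_card_of_injOn
    (fun p => ((2 * (q.1 * p.2 - p.1 * q.2)) / R, (2 * (q.1 * p.1 + q.2 * p.2)) / R)) ?_ ?_
  · intro p hp
    have hp := mem_coe.mp hp
    rw [mem_filter] at hp
    obtain ⟨hpS, hpg⟩ := hp
    obtain ⟨h2, _⟩ := hS p hpS
    obtain ⟨e1, e2⟩ := rep_key R p0.1 p0.2 q.1 q.2 p.1 p.2 g hR h0 c0 h1 c1 h2
      (by rw [← hqg]) (by rw [← hpg])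
    obtain ⟨a, ha⟩ := e1
    obtain ⟨b, hb⟩ := e2
    have hRne : R ≠ 0 := by omega
    have hab : a ^ 2 + b ^ 2 = 4 := by
      have : R ^ 2 * (a ^ 2 + b ^ 2) = R ^ 2 * 4 := by
        calc R ^ 2 * (a ^ 2 + b ^ 2) = (R * a) ^ 2 + (R * b) ^ 2 := by ring
          _ = (2 * (q.1 * p.2 - p.1 * q.2)) ^ 2 + (2 * (q.1 * p.1 + q.2 * p.2)) ^ 2 := by
              rw [ha, hb]
          _ = 4 * ((q.1 ^ 2 + q.2 ^ 2) * (p.1 ^ 2 + p.2 ^ 2)) := by ring
          _ = R ^ 2 * 4 := by rw [h1, h2]; ring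
      exact mul_left_cancel₀ (pow_ne_zero 2 hRne) this
    have hd1 : 2 * (q.1 * p.2 - p.1 * q.2) / R = a := by
      rw [ha]; exact Int.mul_ediv_cancel_left _ hRne
    have hd2 : 2 * (q.1 * p.1 + q.2 * p.2) / R = b := by
      rw [hb]; exact Int.mul_ediv_cancel_left _ hRne
    simp only [hd1, hd2]
    rw [mem_coe, hT]
    have ha2 : -2 ≤ a ∧ a ≤ 2 := by constructor <;> nlinarith [sq_nonneg b]
    have hb2 : -2 ≤ b ∧ b ≤ 2 := by constructor <;> nlinarith [sq_nonneg a]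
    obtain ⟨a1, a2⟩ := ha2
    obtain ⟨b1, b2⟩ := hb2
    interval_cases a <;> interval_cases b <;> first | (exfalso; revert hab; norm_num; done) | simp
  · intro p hp p' hp' heq
    have hp := mem_coe.mp hp
    have hp' := mem_coe.mp hp'
    rw [mem_filter] at hp hp'
    obtain ⟨h2, _⟩ := hS p hp.1
    obtain ⟨h3, _⟩ := hS p' hp'.1
    obtain ⟨e1, e2⟩ := rep_key R p0.1 p0.2 q.1 q.2 p.1 p.2 g hR h0 c0 h1 c1 h2
      (by rw [← hqg]) (by rw [← hp.2])
    obtain ⟨e3, e4⟩ := rep_key R p0.1 p0.2 q.1 q.2 p'.1 p'.2 g hR h0 c0 h1 c1 h3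
      (by rw [← hqg]) (by rw [← hp'.2])
    rw [Prod.mk.injEq] at heq
    have hRne : R ≠ 0 := by omega
    have f1 : q.1 * p.2 - p.1 * q.2 = q.1 * p'.2 - p'.1 * q.2 := by
      have := Int.ediv_mul_cancel e1
      have h' := Int.ediv_mul_cancel e3
      rw [heq.1] at this
      linarith
    have f2 : q.1 * p.1 + q.2 * p.2 = q.1 * p'.1 + q.2 * p'.2 := by
      have := Int.ediv_mul_cancel e2
      have h' := Int.ediv_mul_cancel e4
      rw [heq.2] at this
      linarith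
    have g1 : R * (p.1 - p'.1) = 0 := by
      rw [← h1]
      linear_combination q.1 * f2 - q.2 * f1
    have g2 : R * (p.2 - p'.2) = 0 := by
      rw [← h1]
      linear_combination q.2 * f2 + q.1 * f1
    have k1 : p.1 = p'.1 := by
      rcases mul_eq_zero.mp g1 with h | h
      · exact absurd h hRne
      · linarith
    have k2 : p.2 = p'.2 := by
      rcases mul_eq_zero.mp g2 with h | h
      · exact absurd h hRne
      · linarith
    exact Prod.ext k1 k2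

/-- all representations -/
theorem rep_card (R : ℤ) (hR : 1 ≤ R) (S : Finset (ℤ × ℤ))
    (hS : ∀ p ∈ S, p.1 ^ 2 + p.2 ^ 2 = R) :
    S.card ≤ 4 * R.natAbs.divisors.card ^ 2 := by
  classical
  have hgcd : ∀ p ∈ S, 1 ≤ Int.gcd p.1 p.2 ∧ (Int.gcd p.1 p.2 : ℤ) ^ 2 ∣ R := by
    intro p hp
    have h := hS p hp
    constructor
    · by_contra hcon
      have h0 : Int.gcd p.1 p.2 = 0 := by omega
      rw [Int.gcd_eq_zero_iff] at h0
      rw [h0.1, h0.2] at h
      omega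
    · rw [← h]
      exact dvd_add (pow_dvd_pow_of_dvd (Int.gcd_dvd_left _ _) 2)
        (pow_dvd_pow_of_dvd (Int.gcd_dvd_right _ _) 2)
  have hmap : ∀ p ∈ S, Int.gcd p.1 p.2 ∈ R.natAbs.divisors := by
    intro p hp
    rw [Nat.mem_divisors]
    refine ⟨?_, by omega⟩
    have := (hgcd p hp).2
    have h2 : ((Int.gcd p.1 p.2 : ℤ)) ∣ R := (Dvd.intro_left _ (by ring)).trans this (a := _)
    exact Int.natCast_dvd.mp h2
  have key := Finset.card_le_mul_card_image_of_maps_to (s := S) (t := R.natAbs.divisors)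
    (f := fun p => Int.gcd p.1 p.2) hmap (4 * R.natAbs.divisors.card) ?_
  · calc S.card ≤ _ := key
      _ = _ := by ring
  intro g hg
  rcases (S.filter fun p => Int.gcd p.1 p.2 = g).eq_empty_or_nonempty with h | ⟨q, hq⟩
  · rw [h]; simp
  rw [mem_filter] at hq
  obtain ⟨hqS, hqg⟩ := hq
  obtain ⟨hg1, hg2⟩ := hgcd q hqS
  rw [hqg] at hg1 hg2
  obtain ⟨R', hR'⟩ := hg2
  have hgpos : (0 : ℤ) < g := by exact_mod_cast hg1
  have hg2pos : (0 : ℤ) < (g : ℤ) ^ 2 := by positivity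
  have hR'1 : 1 ≤ R' := by
    by_contra hcon
    have : R' ≤ 0 := by omega
    nlinarith
  -- divide by g
  have hsub : (R'.natAbs.divisors.card) ≤ R.natAbs.divisors.card := by
    apply Finset.card_le_card
    apply Nat.divisors_subset_of_dvd (by omega)
    apply Int.natAbs_dvd_natAbs.mpr
    exact ⟨(g : ℤ) ^ 2, by rw [hR']; ring⟩
  refine le_trans ?_ (Nat.mul_le_mul_left 4 hsub)
  have hinj : Set.InjOn (fun p : ℤ × ℤ => (p.1 / (g : ℤ), p.2 / (g : ℤ)))
      ((S.filter fun p => Int.gcd p.1 p.2 = g : Finset (ℤ × ℤ)) : Set (ℤ × ℤ)) := by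
    intro p hp p' hp' heq
    have hp := mem_coe.mp hp
    have hp' := mem_coe.mp hp'
    rw [mem_filter] at hp hp'
    rw [Prod.mk.injEq] at heq
    have a1 : (g : ℤ) ∣ p.1 := by rw [← hp.2]; exact Int.gcd_dvd_left _ _
    have a2 : (g : ℤ) ∣ p.2 := by rw [← hp.2]; exact Int.gcd_dvd_right _ _
    have b1 : (g : ℤ) ∣ p'.1 := by rw [← hp'.2]; exact Int.gcd_dvd_left _ _
    have b2 : (g : ℤ) ∣ p'.2 := by rw [← hp'.2]; exact Int.gcd_dvd_right _ _
    have c1 := Int.ediv_mul_cancel a1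
    have c2 := Int.ediv_mul_cancel a2
    have d1 := Int.ediv_mul_cancel b1
    have d2 := Int.ediv_mul_cancel b2
    refine Prod.ext ?_ ?_
    · rw [← c1, ← d1, heq.1]
    · rw [← c2, ← d2, heq.2]
  rw [← Finset.card_image_of_injOn hinj]
  apply prim_card R' hR'1
  intro p hp
  rw [mem_image] at hp
  obtain ⟨u, hu, rfl⟩ := hp
  rw [mem_filter] at hu
  have h := hS u hu.1
  have a1 : (g : ℤ) ∣ u.1 := by rw [← hu.2]; exact Int.gcd_dvd_left _ _
  have a2 : (g : ℤ) ∣ u.2 := by rw [← hu.2]; exact Int.gcd_dvd_right _ _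
  obtain ⟨v1, hv1⟩ := a1
  obtain ⟨v2, hv2⟩ := a2
  have hgne : (g : ℤ) ≠ 0 := ne_of_gt hgpos
  have e1 : u.1 / (g : ℤ) = v1 := by rw [hv1]; exact Int.mul_ediv_cancel_left _ hgne
  have e2 : u.2 / (g : ℤ) = v2 := by rw [hv2]; exact Int.mul_ediv_cancel_left _ hgne
  simp only [e1, e2]
  constructor
  · rw [hv1, hv2, hR'] at h
    have : (g : ℤ) ^ 2 * (v1 ^ 2 + v2 ^ 2) = (g : ℤ) ^ 2 * R' := by rw [← h]; ring
    exact mul_left_cancel₀ (ne_of_gt hg2pos) this
  · rw [Int.isCoprime_iff_gcd_eq_one]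
    have := hu.2
    rw [hv1, hv2, Int.gcd_mul_left] at this
    simp only [Int.natAbs_natCast] at this
    have hg0 : 0 < g := by omega
    exact Nat.eq_of_mul_eq_mul_left hg0 (by rw [this, mul_one])

/-- number of representations as a sum of two squares -/
theorem r2_bound : ∀ ε : ℝ, 0 < ε → ∃ C : ℝ, 0 < C ∧ ∀ (R : ℤ), 1 ≤ R →
    ∀ S : Finset (ℤ × ℤ), (∀ p ∈ S, p.1 ^ 2 + p.2 ^ 2 = R) → (S.card : ℝ) ≤ C * (R : ℝ) ^ ε := by
  intro ε hε
  obtain ⟨C, hC, h⟩ := divisor_bound (ε / 2) (by positivity)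
  refine ⟨4 * C ^ 2, by positivity, fun R hR S hS => ?_⟩
  have h1 : (S.card : ℝ) ≤ 4 * (R.natAbs.divisors.card : ℝ) ^ 2 := by
    exact_mod_cast rep_card R hR S hS
  have h2 := h R.natAbs (by omega)
  have h3 : ((R.natAbs : ℕ) : ℝ) = (R : ℝ) := by
    rw [Nat.cast_natAbs, abs_of_nonneg (by omega)]
  rw [h3] at h2
  have hRr : (0 : ℝ) < R := by exact_mod_cast hR
  calc (S.card : ℝ) ≤ 4 * (R.natAbs.divisors.card : ℝ) ^ 2 := h1
    _ ≤ 4 * (C * (R : ℝ) ^ (ε / 2)) ^ 2 := by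
        gcongr
    _ = 4 * C ^ 2 * ((R : ℝ) ^ (ε / 2)) ^ 2 := by ring
    _ = 4 * C ^ 2 * (R : ℝ) ^ ε := by
        have h5 : ((R : ℝ) ^ (ε / 2)) ^ 2 = (R : ℝ) ^ ε := by
          rw [← Real.rpow_natCast, ← Real.rpow_mul hRr.le]
          congr 1
          push_cast
          ring
        rw [h5]

end Stz
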