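import Pool.Agent.Helper65.Stz.Basic
import Pool.Agent.Helper66.Stz.Arith

/-!
# Fourth moments
-/

set_option autoImplicit false

namespace Stz

open Finset

open scoped ComplexConjugate

/-- abstract fourth moment bound -/
theorem fourthG {G Ω ι : Type*} [AddCommGroup G] [DecidableEq G] [Fintype Ω] (e : G → Ω → ℂ)
    (κ : ℝ) (hadd : ∀ u v ω, e (u + v) ω = e u ω * e v ω)
    (horth : ∀ (S : Finset G) (c : G → ℂ),
      κ * ∑ ω, ‖∑ u ∈ S, c u * e u ω‖ ^ 2 = ∑ u ∈ S, ‖c u‖ ^ 2)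
    (S : Finset ι) (φ : ι → G) (c : ι → ℂ) (B : ℝ)
    (hB : ∀ g, (((S ×ˢ S).filter fun p => φ p.1 + φ p.2 = g).card : ℝ) ≤ B) :
    κ * ∑ ω, ‖∑ i ∈ S, c i * e (φ i) ω‖ ^ 4 ≤ B * (∑ i ∈ S, ‖c i‖ ^ 2) ^ 2 := by
  classical
  set T : Finset G := (S ×ˢ S).image fun p => φ p.1 + φ p.2 with hT
  set C : G → ℂ := fun g => ∑ p ∈ (S ×ˢ S).filter (fun p => φ p.1 + φ p.2 = g), c p.1 * c p.2
    with hC
  have h1 : ∀ ω, (∑ i ∈ S, c i * e (φ i) ω) ^ 2 = ∑ g ∈ T, C g * e g ω := by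
    intro ω
    have hm : ∀ p ∈ S ×ˢ S, φ p.1 + φ p.2 ∈ T := fun p hp => mem_image_of_mem _ hp
    calc (∑ i ∈ S, c i * e (φ i) ω) ^ 2
        = ∑ p ∈ S ×ˢ S, (c p.1 * c p.2) * e (φ p.1 + φ p.2) ω := by
          rw [sq, sum_mul_sum, sum_product]
          refine sum_congr rfl fun i _ => sum_congr rfl fun j _ => ?_
          rw [hadd]
          ring
      _ = ∑ g ∈ T, ∑ p ∈ (S ×ˢ S).filter (fun p => φ p.1 + φ p.2 = g),
            (c p.1 * c p.2) * e (φ p.1 + φ p.2) ω :=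
          (sum_fiberwise_of_maps_to hm _).symm
      _ = ∑ g ∈ T, C g * e g ω := by
          refine sum_congr rfl fun g _ => ?_
          rw [hC]
          simp only
          rw [sum_mul]
          refine sum_congr rfl fun p hp => ?_
          rw [(mem_filter.mp hp).2]
  have h2 : ∀ ω, ‖∑ i ∈ S, c i * e (φ i) ω‖ ^ 4 = ‖∑ g ∈ T, C g * e g ω‖ ^ 2 := by
    intro ω
    rw [← h1, norm_pow, ← pow_mul]
  simp only [h2]
  rw [horth]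
  have h3 : ∀ g ∈ T, ‖C g‖ ^ 2 ≤ B * ∑ p ∈ (S ×ˢ S).filter (fun p => φ p.1 + φ p.2 = g),
      (‖c p.1‖ ^ 2 * ‖c p.2‖ ^ 2) := by
    intro g _
    have a1 : ‖C g‖ ≤ ∑ p ∈ (S ×ˢ S).filter (fun p => φ p.1 + φ p.2 = g), ‖c p.1 * c p.2‖ :=
      norm_sum_le _ _
    have a2 : ‖C g‖ ^ 2 ≤
        (∑ p ∈ (S ×ˢ S).filter (fun p => φ p.1 + φ p.2 = g), ‖c p.1 * c p.2‖) ^ 2 :=
      pow_le_pow_left₀ (norm_nonneg _) a1 2
    refine a2.trans (sq_sum_le_card_mul_sum_sq.trans ?_)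
    have a3 : ∀ p : ι × ι, ‖c p.1 * c p.2‖ ^ 2 = ‖c p.1‖ ^ 2 * ‖c p.2‖ ^ 2 := by
      intro p
      rw [norm_mul, mul_pow]
    simp only [a3]
    exact mul_le_mul_of_nonneg_right (hB g) (sum_nonneg fun p _ => by positivity)
  refine (sum_le_sum h3).trans ?_
  rw [← mul_sum]
  have hm : ∀ p ∈ S ×ˢ S, φ p.1 + φ p.2 ∈ T := fun p hp => mem_image_of_mem _ hp
  rw [sum_fiberwise_of_maps_to hm, sum_product, sq, sum_mul_sum]

theorem orth2_aux (A : ℕ) [NeZero A] (S : Finset (ZMod A × ZMod A)) (c : ZMod A × ZMod A → ℂ)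
    (z : ZMod A) :
    (A : ℝ)⁻¹ * ∑ y : ZMod A, ‖∑ u ∈ S, c u * ps A (u.1 * z + u.2 * y)‖ ^ 2
      = ∑ j ∈ S.image Prod.snd, ‖∑ u ∈ S.filter (fun u => u.2 = j), c u * ps A (u.1 * z)‖ ^ 2 := by
  have hm : ∀ u ∈ S, u.2 ∈ S.image Prod.snd := fun u hu => mem_image_of_mem _ hu
  have h := orth A (S.image Prod.snd) (fun j => j) (fun _ _ _ _ h => h)
    (fun j => ∑ u ∈ S.filter (fun u => u.2 = j), c u * ps A (u.1 * z))
  rw [← h]
  congr 1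
  refine sum_congr rfl fun y _ => ?_
  congr 2
  rw [← sum_fiberwise_of_maps_to hm]
  refine sum_congr rfl fun j _ => ?_
  rw [sum_mul]
  refine sum_congr rfl fun u hu => ?_
  rw [ps_add, (mem_filter.mp hu).2, mul_assoc]

theorem orth2_inj (A : ℕ) (S : Finset (ZMod A × ZMod A)) (j : ZMod A) :
    Set.InjOn (fun u : ZMod A × ZMod A => u.1)
      ((S.filter (fun u => u.2 = j) : Finset (ZMod A × ZMod A)) : Set (ZMod A × ZMod A)) := by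
  intro u hu v hv huv
  have hu := mem_filter.mp (mem_coe.mp hu)
  have hv := mem_filter.mp (mem_coe.mp hv)
  exact Prod.ext huv (hu.2.trans hv.2.symm)

theorem orth2_aux2 (A : ℕ) [NeZero A] (S : Finset (ZMod A × ZMod A)) (c : ZMod A × ZMod A → ℂ)
    (j : ZMod A) :
    (A : ℝ)⁻¹ * ∑ z : ZMod A,
      ‖∑ u ∈ S.filter (fun u => u.2 = j), c u * ps A (u.1 * z)‖ ^ 2
      = ∑ u ∈ S.filter (fun u => u.2 = j), ‖c u‖ ^ 2 := by
  have := orth A (S.filter (fun u => u.2 = j)) (fun u : ZMod A × ZMod A => u.1)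
    (orth2_inj A S j) c
  exact this

/-- orthogonality on `ZMod A × ZMod A` -/
theorem orth2 (A : ℕ) [NeZero A] (S : Finset (ZMod A × ZMod A)) (c : ZMod A × ZMod A → ℂ) :
    (A : ℝ)⁻¹ ^ 2 * ∑ w : ZMod A × ZMod A, ‖∑ u ∈ S, c u * ps A (u.1 * w.1 + u.2 * w.2)‖ ^ 2 =
      ∑ u ∈ S, ‖c u‖ ^ 2 := by
  have hm : ∀ u ∈ S, u.2 ∈ S.image Prod.snd := fun u hu => mem_image_of_mem _ hu
  rw [Fintype.sum_prod_type]
  calc (A : ℝ)⁻¹ ^ 2 * ∑ z : ZMod A, ∑ y : ZMod A, ‖∑ u ∈ S, c u * ps A (u.1 * z + u.2 * y)‖ ^ 2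
      = (A : ℝ)⁻¹ * ∑ z : ZMod A, ((A : ℝ)⁻¹ *
          ∑ y : ZMod A, ‖∑ u ∈ S, c u * ps A (u.1 * z + u.2 * y)‖ ^ 2) := by
        rw [sq, mul_assoc, mul_sum]
    _ = (A : ℝ)⁻¹ * ∑ z : ZMod A, ∑ j ∈ S.image Prod.snd,
          ‖∑ u ∈ S.filter (fun u => u.2 = j), c u * ps A (u.1 * z)‖ ^ 2 := by
        congr 1
        exact sum_congr rfl fun z _ => orth2_aux A S c z
    _ = ∑ j ∈ S.image Prod.snd, (A : ℝ)⁻¹ * ∑ z : ZMod A,
          ‖∑ u ∈ S.filter (fun u => u.2 = j), c u * ps A (u.1 * z)‖ ^ 2 := by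
        rw [sum_comm, mul_sum]
    _ = ∑ j ∈ S.image Prod.snd, ∑ u ∈ S.filter (fun u => u.2 = j), ‖c u‖ ^ 2 :=
        sum_congr rfl fun j _ => orth2_aux2 A S c j
    _ = _ := sum_fiberwise_of_maps_to hm _

/-- equality of small naturals modulo `A` -/
theorem eq_of_cast (A : ℕ) [NeZero A] (u v : ℕ) (hu : u < A) (hv : v < A)
    (h : (u : ZMod A) = (v : ZMod A)) : u = v := by
  have h1 := (ZMod.natCast_eq_natCast_iff' u v A).mp h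
  rwa [Nat.mod_eq_of_lt hu, Nat.mod_eq_of_lt hv] at h1

/-- fourth moment of `∑ c_n e(n² z)` -/
theorem four1 : ∀ ε : ℝ, 0 < ε → ∃ C : ℝ, 0 < C ∧ ∀ (N b A : ℕ) [NeZero A], 1 ≤ N →
    (b : ℝ) ≤ (N : ℝ) ^ 2 → 16 * (b + N) ^ 2 < A → ∀ c : ℕ → ℂ,
    (A : ℝ)⁻¹ * ∑ z : ZMod A, ‖∑ n ∈ Icc (b + 1) (b + N), c n * ps A (((n ^ 2 : ℕ) : ZMod A) * z)‖ ^ 4
      ≤ C * (N : ℝ) ^ ε * (∑ n ∈ Icc (b + 1) (b + N), ‖c n‖ ^ 2) ^ 2 := by
  intro ε hε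
  obtain ⟨C, hC, h⟩ := r2_bound (ε / 4) (by positivity)
  refine ⟨C * 8 ^ (ε / 4), by positivity, fun N b A _ hN hb hA c => ?_⟩
  have hN1 : (1 : ℝ) ≤ N := by exact_mod_cast hN
  refine fourthG (fun (u : ZMod A) (z : ZMod A) => ps A (u * z)) ((A : ℝ)⁻¹)
    (fun u v ω => by rw [add_mul, ps_add]) (fun S c => orth A S id (fun _ _ _ _ h => h) c)
    (Icc (b + 1) (b + N)) (fun n => ((n ^ 2 : ℕ) : ZMod A)) c _ ?_
  intro g
  rcases (((Icc (b + 1) (b + N)) ×ˢ (Icc (b + 1) (b + N))).filter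
    fun p => ((p.1 ^ 2 : ℕ) : ZMod A) + ((p.2 ^ 2 : ℕ) : ZMod A) = g).eq_empty_or_nonempty with h0 | ⟨q, hq⟩
  · rw [h0]
    simp only [card_empty, Nat.cast_zero]
    positivity
  rw [mem_filter, mem_product, mem_Icc, mem_Icc] at hq
  obtain ⟨⟨⟨hq1, hq2⟩, hq3, hq4⟩, hqg⟩ := hq
  set R : ℕ := q.1 ^ 2 + q.2 ^ 2 with hR
  have hsmall : ∀ p : ℕ × ℕ, p.1 ≤ b + N → p.2 ≤ b + N → p.1 ^ 2 + p.2 ^ 2 ≤ 2 * (b + N) ^ 2 := by
    intro p h1 h2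
    have := Nat.pow_le_pow_left h1 2
    have := Nat.pow_le_pow_left h2 2
    omega
  have hRle : R ≤ 2 * (b + N) ^ 2 := hsmall q hq2 hq4
  have hR1 : 1 ≤ R := by
    rw [hR]
    have : 1 ≤ q.1 ^ 2 := Nat.one_le_pow _ _ (by omega)
    omega
  -- map to representations
  have hinj : Set.InjOn (fun p : ℕ × ℕ => ((p.1 : ℤ), (p.2 : ℤ)))
      (((((Icc (b + 1) (b + N)) ×ˢ (Icc (b + 1) (b + N))).filter
        fun p => ((p.1 ^ 2 : ℕ) : ZMod A) + ((p.2 ^ 2 : ℕ) : ZMod A) = g) : Finset (ℕ × ℕ)) :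
        Set (ℕ × ℕ)) := by
    intro p _ p' _ heq
    simp only [Prod.mk.injEq, Nat.cast_inj] at heq
    exact Prod.ext heq.1 heq.2
  have hcard := h (R : ℤ) (by exact_mod_cast hR1)
    (((((Icc (b + 1) (b + N)) ×ˢ (Icc (b + 1) (b + N))).filter
        fun p => ((p.1 ^ 2 : ℕ) : ZMod A) + ((p.2 ^ 2 : ℕ) : ZMod A) = g)).image
        (fun p : ℕ × ℕ => ((p.1 : ℤ), (p.2 : ℤ)))) ?_
  · rw [Finset.card_image_of_injOn hinj] at hcard
    refine hcard.trans ?_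
    have h8 : ((R : ℤ) : ℝ) ≤ 8 * (N : ℝ) ^ 4 := by
      have e1 : (R : ℝ) ≤ 2 * ((b : ℝ) + N) ^ 2 := by exact_mod_cast hRle
      have e2 : (b : ℝ) + N ≤ 2 * (N : ℝ) ^ 2 := by nlinarith
      have e3 : ((b : ℝ) + N) ^ 2 ≤ (2 * (N : ℝ) ^ 2) ^ 2 :=
        pow_le_pow_left₀ (by positivity) e2 2
      have e4 : ((R : ℤ) : ℝ) = (R : ℝ) := by push_cast; rfl
      rw [e4]
      nlinarith
    have h9 : ((R : ℤ) : ℝ) ^ (ε / 4) ≤ (8 * (N : ℝ) ^ 4) ^ (ε / 4) :=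
      Real.rpow_le_rpow (by positivity) h8 (by positivity)
    have h10 : (8 * (N : ℝ) ^ 4) ^ (ε / 4) = 8 ^ (ε / 4) * (N : ℝ) ^ ε := by
      rw [Real.mul_rpow (by norm_num) (by positivity)]
      congr 1
      rw [← Real.rpow_natCast, ← Real.rpow_mul (by positivity)]
      congr 1
      push_cast
      ring
    calc C * ((R : ℤ) : ℝ) ^ (ε / 4) ≤ C * (8 * (N : ℝ) ^ 4) ^ (ε / 4) :=
          mul_le_mul_of_nonneg_left h9 hC.le
      _ = C * 8 ^ (ε / 4) * (N : ℝ) ^ ε := by rw [h10]; ring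
  · intro r hr
    rw [mem_image] at hr
    obtain ⟨p, hp, rfl⟩ := hr
    rw [mem_filter, mem_product, mem_Icc, mem_Icc] at hp
    obtain ⟨⟨⟨hp1, hp2⟩, hp3, hp4⟩, hpg⟩ := hp
    have e1 : ((p.1 ^ 2 + p.2 ^ 2 : ℕ) : ZMod A) = ((R : ℕ) : ZMod A) := by
      rw [hR, Nat.cast_add, Nat.cast_add (q.1 ^ 2), hpg, hqg]
    have e2 := eq_of_cast A _ _ (lt_of_le_of_lt (hsmall p hp2 hp4) (by omega))
      (lt_of_le_of_lt hRle (by omega)) e1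
    have e3 : ((p.1 ^ 2 + p.2 ^ 2 : ℕ) : ℤ) = (R : ℤ) := by exact_mod_cast e2
    push_cast at e3
    exact e3

theorem L4L2 : ∀ ε : ℝ, 0 < ε → ∃ C : ℝ, 0 < C ∧ ∀ (N b A : ℕ) [NeZero A], 1 ≤ N →
    (b : ℝ) ≤ (N : ℝ) ^ 2 → 16 * (b + N) ^ 2 < A → ∀ a : ℕ → ℕ → ℂ,
    (A : ℝ)⁻¹ * ∑ z : ZMod A, ((A : ℝ)⁻¹ * ∑ y : ZMod A, ‖F A (Icc (b + 1) (b + N)) N a z y‖ ^ 2) ^ 2
      ≤ C * (N : ℝ) ^ ε * nsq (Icc (b + 1) (b + N)) N a ^ 2 := by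
  intro ε hε
  obtain ⟨C, hC, h⟩ := four1 ε hε
  refine ⟨C, hC, fun N b A _ hN hb hA a => ?_⟩
  have hNA : N ≤ A := by
    have : b + N ≤ (b + N) ^ 2 := Nat.le_self_pow (by norm_num) _
    omega
  have hApos : (0 : ℝ) ≤ (A : ℝ)⁻¹ := by positivity
  set I := Icc (b + 1) (b + N) with hI
  set Gm : ℕ → ZMod A → ℝ := fun m z => ‖∑ n ∈ I, a n m * ps A (((n ^ 2 : ℕ) : ZMod A) * z)‖ ^ 2
    with hG
  have h1 : ∀ z : ZMod A, (A : ℝ)⁻¹ * ∑ y : ZMod A, ‖F A I N a z y‖ ^ 2 =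
      ∑ m ∈ range N, Gm m z := fun z => l2y A N hNA I a z
  simp only [h1]
  have hs : ∀ m, (A : ℝ)⁻¹ * ∑ z : ZMod A, (Gm m z) ^ 2 ≤
      C * (N : ℝ) ^ ε * (∑ n ∈ I, ‖a n m‖ ^ 2) ^ 2 := by
    intro m
    have := h N b A hN hb hA (fun n => a n m)
    refine le_trans (le_of_eq ?_) this
    congr 1
    refine sum_congr rfl fun z _ => ?_
    rw [hG]
    simp only
    rw [← pow_mul]
  have hcross : ∀ m m', (A : ℝ)⁻¹ * ∑ z : ZMod A, Gm m z * Gm m' z ≤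
      C * (N : ℝ) ^ ε * ((∑ n ∈ I, ‖a n m‖ ^ 2) * ∑ n ∈ I, ‖a n m'‖ ^ 2) := by
    intro m m'
    have e1 := sum_mul_sq_le_sq_mul_sq univ (Gm m) (Gm m')
    have e2 : ((A : ℝ)⁻¹ * ∑ z : ZMod A, Gm m z * Gm m' z) ^ 2 ≤
        (C * (N : ℝ) ^ ε * ((∑ n ∈ I, ‖a n m‖ ^ 2) * ∑ n ∈ I, ‖a n m'‖ ^ 2)) ^ 2 := by
      calc ((A : ℝ)⁻¹ * ∑ z : ZMod A, Gm m z * Gm m' z) ^ 2
          = (A : ℝ)⁻¹ ^ 2 * (∑ z : ZMod A, Gm m z * Gm m' z) ^ 2 := by ring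
        _ ≤ (A : ℝ)⁻¹ ^ 2 * ((∑ z : ZMod A, Gm m z ^ 2) * ∑ z : ZMod A, Gm m' z ^ 2) :=
            mul_le_mul_of_nonneg_left e1 (by positivity)
        _ = ((A : ℝ)⁻¹ * ∑ z : ZMod A, Gm m z ^ 2) * ((A : ℝ)⁻¹ * ∑ z : ZMod A, Gm m' z ^ 2) := by
            ring
        _ ≤ (C * (N : ℝ) ^ ε * (∑ n ∈ I, ‖a n m‖ ^ 2) ^ 2) *
            (C * (N : ℝ) ^ ε * (∑ n ∈ I, ‖a n m'‖ ^ 2) ^ 2) := by
            refine mul_le_mul (hs m) (hs m') ?_ ?_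
            · exact mul_nonneg hApos (sum_nonneg fun z _ => sq_nonneg _)
            · positivity
        _ = _ := by ring
    exact le_of_abs_le (abs_le_of_sq_le_sq e2 (by positivity))
  calc (A : ℝ)⁻¹ * ∑ z : ZMod A, (∑ m ∈ range N, Gm m z) ^ 2
      = ∑ m ∈ range N, ∑ m' ∈ range N, (A : ℝ)⁻¹ * ∑ z : ZMod A, Gm m z * Gm m' z := by
        have e : ∀ z : ZMod A, (∑ m ∈ range N, Gm m z) ^ 2 =
            ∑ m ∈ range N, ∑ m' ∈ range N, Gm m z * Gm m' z := by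
          intro z
          rw [sq, sum_mul_sum]
        simp only [e]
        rw [sum_comm, mul_sum]
        refine sum_congr rfl fun m _ => ?_
        rw [sum_comm, mul_sum]
    _ ≤ ∑ m ∈ range N, ∑ m' ∈ range N,
          C * (N : ℝ) ^ ε * ((∑ n ∈ I, ‖a n m‖ ^ 2) * ∑ n ∈ I, ‖a n m'‖ ^ 2) :=
        sum_le_sum fun m _ => sum_le_sum fun m' _ => hcross m m'
    _ = C * (N : ℝ) ^ ε * (∑ m ∈ range N, ∑ n ∈ I, ‖a n m‖ ^ 2) ^ 2 := by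
        rw [sq (∑ m ∈ range N, ∑ n ∈ I, ‖a n m‖ ^ 2), sum_mul_sum, mul_sum]
        refine sum_congr rfl fun m _ => ?_
        rw [mul_sum]
    _ = C * (N : ℝ) ^ ε * nsq I N a ^ 2 := by
        rw [nsq, sum_comm]

/-- the number of quadruples -/
theorem quad_count (C δ : ℝ) (hC : 0 < C) (hδ : 0 < δ)
    (h : ∀ (R : ℤ), 1 ≤ R → ∀ S : Finset (ℤ × ℤ), (∀ p ∈ S, p.1 ^ 2 + p.2 ^ 2 = R) →
      (S.card : ℝ) ≤ C * (R : ℝ) ^ δ)
    (N b k j : ℕ) (hN : 1 ≤ N) (hb : 1 ≤ b) (S : Finset ((ℕ × ℕ) × (ℕ × ℕ)))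
    (hS : ∀ s ∈ S, s.1.1 ∈ Icc (b + 1) (b + N) ∧ s.1.2 ∈ range N ∧ s.2.1 ∈ Icc (b + 1) (b + N) ∧
      s.2.2 ∈ range N ∧ s.1.1 ^ 2 + s.1.2 ^ 2 + (s.2.1 ^ 2 + s.2.2 ^ 2) = k ∧ s.1.2 + s.2.2 = j) :
    (S.card : ℝ) ≤ (1 + C * (2 * (N : ℝ) ^ 2) ^ δ) * (1 + (N : ℝ) ^ 2 / b) := by
  classical
  rcases S.eq_empty_or_nonempty with h0 | hne
  · rw [h0]
    simp only [card_empty, Nat.cast_zero]
    positivity
  have hN1 : (1 : ℝ) ≤ N := by exact_mod_cast hN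
  set P : Finset ℕ := S.image (fun s => s.1.1 + s.2.1) with hP
  -- the identity
  have hid : ∀ s ∈ S, ((s.1.1 : ℤ) + s.2.1) ^ 2 + ((s.1.1 : ℤ) - s.2.1) ^ 2 +
      ((s.1.2 : ℤ) - s.2.2) ^ 2 = 2 * k - j ^ 2 := by
    intro s hs
    obtain ⟨_, _, _, _, h5, h6⟩ := hS s hs
    rw [← h5, ← h6]
    push_cast
    ring
  have hdiff : ∀ s ∈ S, ((s.1.1 : ℤ) - s.2.1) ^ 2 + ((s.1.2 : ℤ) - s.2.2) ^ 2 ≤ 2 * N ^ 2 := by
    intro s hs
    obtain ⟨h1, h2, h3, h4, _, _⟩ := hS s hs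
    rw [mem_Icc] at h1 h3
    rw [mem_range] at h2 h4
    have a1 : |(s.1.1 : ℤ) - s.2.1| ≤ N := by rw [abs_le]; constructor <;> omega
    have a2 : |(s.1.2 : ℤ) - s.2.2| ≤ N := by rw [abs_le]; constructor <;> omega
    have b1 := sq_le_sq' (abs_le.mp a1).1 (abs_le.mp a1).2
    have b2 := sq_le_sq' (abs_le.mp a2).1 (abs_le.mp a2).2
    linarith
  -- number of values of p
  have hPc : (P.card : ℝ) ≤ 1 + (N : ℝ) ^ 2 / b := by
    have hPne : P.Nonempty := hne.image _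
    set p0 := P.min' hPne with hp0
    have hsub : P ⊆ Icc p0 (p0 + N ^ 2 / b) := by
      intro p hp
      rw [mem_Icc]
      refine ⟨P.min'_le p hp, ?_⟩
      have hp0m : p0 ∈ P := P.min'_mem hPne
      rw [hP, mem_image] at hp hp0m
      obtain ⟨s, hs, hsp⟩ := hp
      obtain ⟨t, ht, htp⟩ := hp0m
      have i1 := hid s hs
      have i2 := hid t ht
      have i3 := hdiff t ht
      obtain ⟨h1, _, h3, _, _, _⟩ := hS s hs
      obtain ⟨h1', _, h3', _, _, _⟩ := hS t ht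
      rw [mem_Icc] at h1 h3 h1' h3'
      have e1 : ((s.1.1 : ℤ) + s.2.1) = (p : ℤ) := by exact_mod_cast hsp
      have e2 : ((t.1.1 : ℤ) + t.2.1) = (p0 : ℤ) := by exact_mod_cast htp
      rw [e1] at i1
      rw [e2] at i2
      have hpb : (2 * b : ℤ) ≤ p := by omega
      have hpb0 : (2 * b : ℤ) ≤ p0 := by omega
      have hle : (p : ℤ) ^ 2 ≤ (p0 : ℤ) ^ 2 + 2 * N ^ 2 := by
        have n1 := sq_nonneg ((s.1.1 : ℤ) - s.2.1)
        have n2 := sq_nonneg ((s.1.2 : ℤ) - s.2.2)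
        linarith
      by_cases hpp : (p : ℤ) ≤ p0
      · have h7 : p ≤ p0 := by exact_mod_cast hpp
        exact h7.trans (Nat.le_add_right _ _)
      · have hpp' : (0 : ℤ) ≤ (p : ℤ) - p0 := by linarith
        have e3 : ((p : ℤ) - p0) * (2 * b) ≤ ((p : ℤ) - p0) * (p + p0) :=
          mul_le_mul_of_nonneg_left (by linarith) hpp'
        have e3' : ((p : ℤ) - p0) * (p + p0) = (p : ℤ) ^ 2 - (p0 : ℤ) ^ 2 := by ring
        have e4 : ((p : ℤ) - p0) * b ≤ N ^ 2 := by linarith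
        have e5 : (p - p0) * b ≤ N ^ 2 := by
          have : p0 ≤ p := by omega
          zify [this]
          exact e4
        have e6 : p - p0 ≤ N ^ 2 / b := (Nat.le_div_iff_mul_le (by omega)).mpr e5
        generalize N ^ 2 / b = M at e6 ⊢
        omega
    have hc := Finset.card_le_card hsub
    rw [Nat.card_Icc] at hc
    have hc2 : P.card ≤ 1 + N ^ 2 / b := by
      refine hc.trans ?_
      generalize N ^ 2 / b = M
      omega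
    have hbr : (0 : ℝ) < b := by exact_mod_cast hb
    calc (P.card : ℝ) ≤ ((1 + N ^ 2 / b : ℕ) : ℝ) := by exact_mod_cast hc2
      _ = 1 + ((N ^ 2 / b : ℕ) : ℝ) := by push_cast; ring
      _ ≤ 1 + ((N ^ 2 : ℕ) : ℝ) / b := by
          have := @Nat.cast_div_le ℝ _ _ _ (N ^ 2) b
          linarith
      _ = _ := by push_cast; ring
  -- fibres
  have hfib : ∀ p ∈ P, (((S.filter fun s => s.1.1 + s.2.1 = p).card : ℕ) : ℝ) ≤
      1 + C * (2 * (N : ℝ) ^ 2) ^ δ := by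
    intro p hp
    rw [hP, mem_image] at hp
    obtain ⟨t, ht, htp⟩ := hp
    have i1 := hid t ht
    have i2 := hdiff t ht
    have e2 : ((t.1.1 : ℤ) + t.2.1) = (p : ℤ) := by exact_mod_cast htp
    rw [e2] at i1
    set R : ℤ := 2 * k - j ^ 2 - p ^ 2 with hR
    have hR0 : 0 ≤ R := by
      rw [hR]
      have n1 := sq_nonneg ((t.1.1 : ℤ) - t.2.1)
      have n2 := sq_nonneg ((t.1.2 : ℤ) - t.2.2)
      linarith
    have hR2 : R ≤ 2 * N ^ 2 := by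
      rw [hR]
      linarith
    have hinj : Set.InjOn (fun s : (ℕ × ℕ) × (ℕ × ℕ) => ((s.1.1 : ℤ) - s.2.1, (s.1.2 : ℤ) - s.2.2))
        ((S.filter fun s => s.1.1 + s.2.1 = p : Finset ((ℕ × ℕ) × (ℕ × ℕ))) :
          Set ((ℕ × ℕ) × (ℕ × ℕ))) := by
      intro s hs s' hs' heq
      have hs := mem_filter.mp (mem_coe.mp hs)
      have hs' := mem_filter.mp (mem_coe.mp hs')
      obtain ⟨_, _, _, _, _, h6⟩ := hS s hs.1
      obtain ⟨_, _, _, _, _, h6'⟩ := hS s' hs'.1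
      rw [Prod.mk.injEq] at heq
      have a1 := hs.2
      have a2 := hs'.2
      obtain ⟨q1, q2⟩ := heq
      refine Prod.ext (Prod.ext ?_ ?_) (Prod.ext ?_ ?_) <;> omega
    have hmem : ∀ r ∈ (S.filter fun s => s.1.1 + s.2.1 = p).image
        (fun s : (ℕ × ℕ) × (ℕ × ℕ) => ((s.1.1 : ℤ) - s.2.1, (s.1.2 : ℤ) - s.2.2)),
        r.1 ^ 2 + r.2 ^ 2 = R := by
      intro r hr
      rw [mem_image] at hr
      obtain ⟨s, hs, rfl⟩ := hr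
      rw [mem_filter] at hs
      have i3 := hid s hs.1
      have e3 : ((s.1.1 : ℤ) + s.2.1) = (p : ℤ) := by exact_mod_cast hs.2
      rw [e3] at i3
      simp only
      rw [hR]
      linarith
    rw [← Finset.card_image_of_injOn hinj]
    rcases hR0.eq_or_lt with hz | hz
    · have hsub : (S.filter fun s => s.1.1 + s.2.1 = p).image
        (fun s : (ℕ × ℕ) × (ℕ × ℕ) => ((s.1.1 : ℤ) - s.2.1, (s.1.2 : ℤ) - s.2.2)) ⊆
          {((0 : ℤ), (0 : ℤ))} := by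
        intro r hr
        have := hmem r hr
        rw [← hz] at this
        have r1 : r.1 = 0 := by nlinarith [sq_nonneg r.1, sq_nonneg r.2]
        have r2 : r.2 = 0 := by nlinarith [sq_nonneg r.1, sq_nonneg r.2]
        rw [mem_singleton]
        exact Prod.ext r1 r2
      have hc := Finset.card_le_card hsub
      rw [card_singleton] at hc
      have hc' : (((S.filter fun s => s.1.1 + s.2.1 = p).image
        (fun s : (ℕ × ℕ) × (ℕ × ℕ) => ((s.1.1 : ℤ) - s.2.1, (s.1.2 : ℤ) - s.2.2))).card : ℝ) ≤ 1 := by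
        exact_mod_cast hc
      refine hc'.trans ?_
      have : 0 ≤ C * (2 * (N : ℝ) ^ 2) ^ δ := by positivity
      linarith
    · refine (h R (by omega) _ hmem).trans ?_
      have hRr : (R : ℝ) ≤ 2 * (N : ℝ) ^ 2 := by exact_mod_cast hR2
      have hRr0 : (0 : ℝ) ≤ R := by exact_mod_cast hR0
      have := Real.rpow_le_rpow hRr0 hRr hδ.le
      have h2 := mul_le_mul_of_nonneg_left this hC.le
      linarith
  calc (S.card : ℝ) = ((∑ p ∈ P, (S.filter fun s => s.1.1 + s.2.1 = p).card : ℕ) : ℝ) := by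
        congr 1
        exact card_eq_sum_card_fiberwise fun s hs => mem_image_of_mem _ hs
    _ = ∑ p ∈ P, ((S.filter fun s => s.1.1 + s.2.1 = p).card : ℝ) := by push_cast; rfl
    _ ≤ ∑ p ∈ P, (1 + C * (2 * (N : ℝ) ^ 2) ^ δ) := sum_le_sum hfib
    _ = P.card * (1 + C * (2 * (N : ℝ) ^ 2) ^ δ) := by rw [sum_const, nsmul_eq_mul]
    _ ≤ (1 + (N : ℝ) ^ 2 / b) * (1 + C * (2 * (N : ℝ) ^ 2) ^ δ) :=
        mul_le_mul_of_nonneg_right hPc (by positivity)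
    _ = _ := by ring

theorem L4big : ∀ ε : ℝ, 0 < ε → ∃ C : ℝ, 0 < C ∧ ∀ (N b A : ℕ) [NeZero A], 1 ≤ N → 1 ≤ b →
    16 * (b + N) ^ 2 < A → ∀ a : ℕ → ℕ → ℂ,
    (A : ℝ)⁻¹ ^ 2 * ∑ z : ZMod A, ∑ y : ZMod A, ‖F A (Icc (b + 1) (b + N)) N a z y‖ ^ 4
      ≤ C * (N : ℝ) ^ ε * (1 + (N : ℝ) ^ 2 / b) * nsq (Icc (b + 1) (b + N)) N a ^ 2 := by
  classical
  intro ε hε
  obtain ⟨C, hC, h⟩ := r2_bound (ε / 2) (by positivity)
  refine ⟨1 + C * 2 ^ (ε / 2), by positivity, fun N b A _ hN hb hA a => ?_⟩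
  have hN1 : (1 : ℝ) ≤ N := by exact_mod_cast hN
  set I := Icc (b + 1) (b + N) with hI
  have hbound : ∀ g : ZMod A × ZMod A,
      ((((I ×ˢ range N) ×ˢ (I ×ˢ range N)).filter fun p : (ℕ × ℕ) × (ℕ × ℕ) =>
        ((((p.1.1 ^ 2 + p.1.2 ^ 2 : ℕ) : ZMod A), (p.1.2 : ZMod A)) : ZMod A × ZMod A) +
        (((p.2.1 ^ 2 + p.2.2 ^ 2 : ℕ) : ZMod A), (p.2.2 : ZMod A)) = g).card : ℝ) ≤
      (1 + C * (2 * (N : ℝ) ^ 2) ^ (ε / 2)) * (1 + (N : ℝ) ^ 2 / b) := by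
    intro g
    rcases (((I ×ˢ range N) ×ˢ (I ×ˢ range N)).filter fun p : (ℕ × ℕ) × (ℕ × ℕ) =>
        ((((p.1.1 ^ 2 + p.1.2 ^ 2 : ℕ) : ZMod A), (p.1.2 : ZMod A)) : ZMod A × ZMod A) +
        (((p.2.1 ^ 2 + p.2.2 ^ 2 : ℕ) : ZMod A), (p.2.2 : ZMod A)) = g).eq_empty_or_nonempty
      with h0 | ⟨q, hq⟩
    · rw [h0]
      simp only [card_empty, Nat.cast_zero]
      positivity
    have hbd : ∀ p : (ℕ × ℕ) × (ℕ × ℕ), p ∈ (I ×ˢ range N) ×ˢ (I ×ˢ range N) →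
        p.1.1 ^ 2 + p.1.2 ^ 2 + (p.2.1 ^ 2 + p.2.2 ^ 2) < A ∧ p.1.2 + p.2.2 < A := by
      intro p hp
      rw [mem_product, mem_product, mem_product, hI, mem_Icc, mem_Icc, mem_range, mem_range] at hp
      obtain ⟨⟨⟨_, h2⟩, h3⟩, ⟨_, h5⟩, h6⟩ := hp
      have a1 := Nat.pow_le_pow_left h2 2
      have a2 := Nat.pow_le_pow_left (show p.1.2 ≤ b + N by omega) 2
      have a3 := Nat.pow_le_pow_left h5 2
      have a4 := Nat.pow_le_pow_left (show p.2.2 ≤ b + N by omega) 2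
      have a5 : b + N ≤ (b + N) ^ 2 := Nat.le_self_pow (by norm_num) _
      constructor <;> omega
    rw [mem_filter] at hq
    obtain ⟨hq1, hq2⟩ := hq
    refine quad_count C (ε / 2) hC (by positivity) h N b
      (q.1.1 ^ 2 + q.1.2 ^ 2 + (q.2.1 ^ 2 + q.2.2 ^ 2)) (q.1.2 + q.2.2) hN hb _ ?_
    intro s hs
    rw [mem_filter] at hs
    obtain ⟨hs1, hs2⟩ := hs
    have b1 := hbd s hs1
    have b2 := hbd q hq1
    rw [← hq2, Prod.mk_add_mk, Prod.mk_add_mk, Prod.mk.injEq] at hs2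
    obtain ⟨c1, c2⟩ := hs2
    rw [← Nat.cast_add, ← Nat.cast_add] at c1 c2
    have d1 := eq_of_cast A _ _ b1.1 b2.1 c1
    have d2 := eq_of_cast A _ _ b1.2 b2.2 c2
    rw [mem_product, mem_product, mem_product] at hs1
    exact ⟨hs1.1.1, hs1.1.2, hs1.2.1, hs1.2.2, d1, d2⟩
  have key := fourthG
    (fun (u : ZMod A × ZMod A) (w : ZMod A × ZMod A) => ps A (u.1 * w.1 + u.2 * w.2))
    ((A : ℝ)⁻¹ ^ 2)
    (fun u v w => by
      simp only [Prod.fst_add, Prod.snd_add]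
      rw [← ps_add]
      congr 1
      ring)
    (fun S c => orth2 A S c) (I ×ˢ range N)
    (fun p : ℕ × ℕ => (((p.1 ^ 2 + p.2 ^ 2 : ℕ) : ZMod A), (p.2 : ZMod A)))
    (fun p => a p.1 p.2) _ hbound
  rw [Fintype.sum_prod_type, sum_product] at key
  have e1 : ∀ z y : ZMod A, ‖F A I N a z y‖ ^ 4 = ‖∑ i ∈ I ×ˢ range N, a i.1 i.2 *
      ps A ((((i.1 ^ 2 + i.2 ^ 2 : ℕ) : ZMod A), (i.2 : ZMod A)).1 * (z, y).1 +
        (((i.1 ^ 2 + i.2 ^ 2 : ℕ) : ZMod A), (i.2 : ZMod A)).2 * (z, y).2)‖ ^ 4 := by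
    intro z y
    rw [F, sum_product]
  simp only [e1]
  refine key.trans ?_
  have hn : nsq I N a = ∑ x ∈ I, ∑ y ∈ range N, ‖a (x, y).1 (x, y).2‖ ^ 2 := rfl
  rw [← hn]
  refine mul_le_mul_of_nonneg_right ?_ (sq_nonneg _)
  refine mul_le_mul_of_nonneg_right ?_ (by positivity)
  have h10 : (2 * (N : ℝ) ^ 2) ^ (ε / 2) = 2 ^ (ε / 2) * (N : ℝ) ^ ε := by
    rw [Real.mul_rpow (by norm_num) (by positivity)]
    congr 1
    rw [← Real.rpow_natCast, ← Real.rpow_mul (by positivity)]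
    congr 1
    push_cast
    ring
  have h11 : 1 ≤ (N : ℝ) ^ ε := Real.one_le_rpow hN1 hε.le
  rw [h10, add_mul, one_mul, mul_assoc]
  linarith

end Stz
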